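import Mathlib

set_option autoImplicit false

namespace Pool.Agent.Results.MP_174134_gt.NoSingleEllipsoid

open scoped RealInnerProductSpace ContDiff Topology

/-- The Euclidean plane. The coordinates of a point `x` are `t = x 0` and `v = x 1`. -/
abbrev Plane : Type := EuclideanSpace ℝ (Fin 2)

/-- Euclidean 4-space. -/
abbrev E4 : Type := EuclideanSpace ℝ (Fin 4)

/-- The glide reflection `(t, v) ↦ (-t, v + a)` of the plane. -/
noncomputable def glide (a : ℝ) : Equiv.Perm Plane where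
  toFun x := !₂[-x 0, x 1 + a]
  invFun x := !₂[-x 0, x 1 - a]
  left_inv x := by ext i; fin_cases i <;> simp
  right_inv x := by ext i; fin_cases i <;> simp

/-- The complete flat Moebius band of width `a`: the quotient of the plane by the group
generated by the glide reflection `(t, v) ↦ (-t, v + a)`. -/
def MoebiusBand (a : ℝ) : Type :=
  MulAction.orbitRel.Quotient (Subgroup.zpowers (glide a)) Plane

/-- The covering projection from the plane to the band. -/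
noncomputable def proj (a : ℝ) (x : Plane) : MoebiusBand a := Quotient.mk _ x

/-- A map `g` from the band to Euclidean 4-space is a smooth isometric immersion: its lift to
the plane (through the covering projection, which is a local isometry and a local
diffeomorphism) is smooth and its differential preserves the lengths of all tangent vectors. -/
structure IsIsometricImmersion (a : ℝ) (g : MoebiusBand a → E4) : Prop where
  smooth : ContDiff ℝ ∞ (fun x => g (proj a x))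
  isometric : ∀ x w : Plane, ‖fderiv ℝ (fun y => g (proj a y)) x w‖ = ‖w‖

/-- A smooth isometric embedding of the band: an injective smooth isometric immersion. -/
structure IsIsometricEmbedding (a : ℝ) (g : MoebiusBand a → E4) : Prop extends
    IsIsometricImmersion a g where
  injective : Function.Injective g

/-- `E` is an ellipsoid: in suitable Cartesian coordinates `y = A p` it is given by
`∑ y_i ^ 2 / c_i ^ 2 = 1` with all `c_i > 0`. -/
def IsEllipsoid (E : Set E4) : Prop :=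
  ∃ (A : E4 ≃ᵃⁱ[ℝ] E4) (c : Fin 4 → ℝ), (∀ i, 0 < c i) ∧
    E = {p : E4 | ∑ i, (A p i) ^ 2 / (c i) ^ 2 = 1}

theorem proj_glide (a : ℝ) (x : Plane) : proj a (glide a x) = proj a x := by
  apply Quotient.sound
  exact ⟨⟨glide a, Subgroup.mem_zpowers _⟩, rfl⟩

/-- The derivative of `G` in the direction `u`. -/
noncomputable def D {V : Type*} [NormedAddCommGroup V] [NormedSpace ℝ V] (u : Plane)
    (G : Plane → V) : Plane → V := fun x => fderiv ℝ G x u

section
variable {V : Type*} [NormedAddCommGroup V] [NormedSpace ℝ V]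

theorem D_smooth {G : Plane → V} (hG : ContDiff ℝ ∞ G) (u : Plane) : ContDiff ℝ ∞ (D u G) := by
  unfold D
  exact (hG.fderiv_right (m := ∞) (by simp)).clm_apply contDiff_const

theorem D_comm {G : Plane → V} (hG : ContDiff ℝ ∞ G) (u v : Plane) (x : Plane) :
    D u (D v G) x = D v (D u G) x := by
  have h1 : ∀ a b : Plane, D a (D b G) x = fderiv ℝ (fderiv ℝ G) x a b := by
    intro a b
    unfold D
    have hd : DifferentiableAt ℝ (fderiv ℝ G) x :=
      ((hG.fderiv_right (m := ∞) (by simp)).differentiable (by simp)) x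
    rw [fderiv_clm_apply hd (differentiableAt_const b)]
    simp
  rw [h1, h1]
  have := (hG.contDiffAt (x := x)).isSymmSndFDerivAt (by
    rw [minSmoothness_of_isRCLikeNormedField]
    exact WithTop.coe_le_coe.2 (le_top : (2 : ℕ∞) ≤ ⊤))
  exact this u v

theorem D_comm' {G : Plane → V} (hG : ContDiff ℝ ∞ G) (u v : Plane) :
    D u (D v G) = D v (D u G) := funext (D_comm hG u v)

theorem D_lin {G : Plane → V} (u v : Plane) (s t : ℝ) :
    D (s • u + t • v) G = fun x => s • D u G x + t • D v G x := by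
  funext x
  simp [D]

theorem D_smul_add {G H : Plane → V} (hG : ContDiff ℝ ∞ G) (hH : ContDiff ℝ ∞ H) (u : Plane)
    (s t : ℝ) (x : Plane) :
    D u (fun x => s • G x + t • H x) x = s • D u G x + t • D u H x := by
  have h1 : DifferentiableAt ℝ G x := hG.differentiable (by simp) x
  have h2 : DifferentiableAt ℝ H x := hH.differentiable (by simp) x
  unfold D
  have e := ((h1.hasFDerivAt.const_smul s).add (h2.hasFDerivAt.const_smul t)).fderiv
  have e' : fderiv ℝ (fun x => s • G x + t • H x) x = s • fderiv ℝ G x + t • fderiv ℝ H x := e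
  rw [e']; rfl

theorem D_inner {G H : Plane → E4} (hG : ContDiff ℝ ∞ G) (hH : ContDiff ℝ ∞ H) (u : Plane)
    (x : Plane) :
    D u (fun x => ⟪G x, H x⟫) x = ⟪G x, D u H x⟫ + ⟪D u G x, H x⟫ := by
  have h1 : DifferentiableAt ℝ G x := hG.differentiable (by simp) x
  have h2 : DifferentiableAt ℝ H x := hH.differentiable (by simp) x
  unfold D
  rw [fderiv_inner_apply ℝ h1 h2]

theorem D_const (c : V) (u : Plane) : D u (fun _ : Plane => c) = fun _ => 0 := by
  funext x; simp [D]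

theorem D_clm (S : E4 →L[ℝ] E4) {G : Plane → E4} (hG : ContDiff ℝ ∞ G) (u : Plane) :
    D u (fun x => S (G x)) = fun x => S (D u G x) := by
  funext x
  have h1 : DifferentiableAt ℝ G x := hG.differentiable (by simp) x
  unfold D
  have := (S.hasFDerivAt.comp x h1.hasFDerivAt).fderiv
  have h2 : fderiv ℝ (fun x => S (G x)) x = S.comp (fderiv ℝ G x) := this
  rw [h2]; rfl

end

section geometry

variable {F : Plane → E4} (hF : ContDiff ℝ ∞ F) (hiso : ∀ x w, ‖fderiv ℝ F x w‖ = ‖w‖)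

include hiso in
theorem metric (u v x : Plane) : ⟪D u F x, D v F x⟫ = ⟪u, v⟫ := by
  have := (⟨(fderiv ℝ F x).toLinearMap, hiso x⟩ : Plane →ₗᵢ[ℝ] E4).inner_map_map u v
  exact this

include hF hiso in
theorem tang (u v w x : Plane) : ⟪D u (D v F) x, D w F x⟫ = 0 := by
  have key : ∀ a b c : Plane, ⟪D a (D b F) x, D c F x⟫ = - ⟪D a (D c F) x, D b F x⟫ := by
    intro a b c
    have h : (fun x => ⟪D b F x, D c F x⟫) = fun _ => ⟪b, c⟫ := by
      funext y; exact metric hiso b c y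
    have h2 := D_inner (D_smooth hF b) (D_smooth hF c) a x
    rw [h, D_const] at h2
    have h3 := real_inner_comm (D b F x) (D a (D c F) x)
    simp only at h2
    linarith
  have e1 := key u v w
  have e2 := key u w v
  have e3 := key w u v
  have e4 := key v u w
  have e5 := key v w u
  have e6 := key w v u
  rw [D_comm hF v u] at e4
  rw [D_comm hF w u] at e3
  rw [D_comm hF v w] at e5
  rw [D_comm hF w v] at e6
  rw [D_comm hF w v] at e5
  rw [D_comm hF v w] at *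
  linarith

include hF hiso in
theorem gauss (u v x : Plane) :
    ⟪D u (D u F) x, D v (D v F) x⟫ = ⟪D u (D v F) x, D u (D v F) x⟫ := by
  have h1 : (fun x => ⟪D u (D u F) x, D v F x⟫) = fun _ => (0:ℝ) := by
    funext y; exact tang hF hiso u u v y
  have h2 : (fun x => ⟪D u (D v F) x, D v F x⟫) = fun _ => (0:ℝ) := by
    funext y; exact tang hF hiso u v v y
  have e1 := D_inner (D_smooth (D_smooth hF u) u) (D_smooth hF v) v x
  have e2 := D_inner (D_smooth (D_smooth hF v) u) (D_smooth hF v) u x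
  rw [h1, D_const] at e1
  rw [h2, D_const] at e2
  have e3 : D v (D u (D u F)) x = D u (D u (D v F)) x := by
    rw [D_comm (D_smooth hF u) v u, D_comm' hF v u]
  rw [e3] at e1
  linarith

end geometry


theorem quad_zero (p q r : ℝ) (h : p * r - q ^ 2 ≤ 0) :
    ∃ s t : ℝ, (s ≠ 0 ∨ t ≠ 0) ∧ s ^ 2 * p + 2 * (s * t) * q + t ^ 2 * r = 0 := by
  by_cases hp : p = 0
  · exact ⟨1, 0, Or.inl one_ne_zero, by simp [hp]⟩
  · refine ⟨-q + Real.sqrt (q ^ 2 - p * r), p, Or.inr hp, ?_⟩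
    have hs : Real.sqrt (q ^ 2 - p * r) ^ 2 = q ^ 2 - p * r := Real.sq_sqrt (by linarith)
    linear_combination p * hs

theorem exists_normal (e1 e2 ν : E4) (h11 : ⟪e1, e1⟫ = 1) (h22 : ⟪e2, e2⟫ = 1)
    (h12 : ⟪e1, e2⟫ = 0) (hν : ν ≠ 0) (hν1 : ⟪ν, e1⟫ = 0) (hν2 : ⟪ν, e2⟫ = 0) :
    ∃ n : E4, ⟪n, n⟫ = 1 ∧ ⟪ν, n⟫ = 0 ∧ ∀ b : E4, ⟪b, e1⟫ = 0 → ⟪b, e2⟫ = 0 →
      b = (⟪ν, b⟫ / ⟪ν, ν⟫) • ν + ⟪n, b⟫ • n := by
  have hνν : 0 < ⟪ν, ν⟫ := real_inner_self_pos.2 hν
  set W : Submodule ℝ E4 := Submodule.span ℝ (Set.range ![e1, e2, ν]) with hW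
  have hlin : LinearIndependent ℝ ![e1, e2, ν] := by
    rw [Fintype.linearIndependent_iff]
    intro g hg
    rw [Fin.sum_univ_three] at hg
    simp only [Matrix.cons_val_zero, Matrix.cons_val_one, Matrix.cons_val_two, Matrix.head_cons,
      Matrix.tail_cons] at hg
    have a1 : ⟪g 0 • e1 + g 1 • e2 + g 2 • ν, e1⟫ = 0 := by rw [hg]; simp
    have a2 : ⟪g 0 • e1 + g 1 • e2 + g 2 • ν, e2⟫ = 0 := by rw [hg]; simp
    have a3 : ⟪g 0 • e1 + g 1 • e2 + g 2 • ν, ν⟫ = 0 := by rw [hg]; simp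
    have h21 : ⟪e2, e1⟫ = 0 := by rw [real_inner_comm]; exact h12
    have h1ν : ⟪e1, ν⟫ = 0 := by rw [real_inner_comm]; exact hν1
    have h2ν : ⟪e2, ν⟫ = 0 := by rw [real_inner_comm]; exact hν2
    simp only [inner_add_left, real_inner_smul_left, h11, h22, h12, h21, hν1, hν2, h1ν, h2ν] at a1 a2 a3
    intro i
    fin_cases i
    · simpa using a1
    · simpa using a2
    · have : g 2 * ⟪ν, ν⟫ = 0 := by simpa using a3
      rcases mul_eq_zero.1 this with h | h
      · exact h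
      · exact absurd h hνν.ne'
  have hfr3 : Module.finrank ℝ W = 3 := by
    rw [hW, finrank_span_eq_card hlin]; simp
  have hperp : Module.finrank ℝ Wᗮ = 1 := by
    have := Submodule.finrank_add_finrank_orthogonal (K := W)
    rw [hfr3] at this
    simp at this
    omega
  obtain ⟨m, hm0, hm⟩ := finrank_eq_one_iff'.1 hperp
  have hm0' : (m : E4) ≠ 0 := by
    intro h; exact hm0 (Subtype.ext h)
  have hnorm : ‖(m : E4)‖ ≠ 0 := norm_ne_zero_iff.2 hm0'
  have memW : ∀ i, ![e1, e2, ν] i ∈ W := fun i => Submodule.subset_span ⟨i, rfl⟩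
  have hmem1 : ⟪e1, (m : E4)⟫ = 0 := Submodule.inner_right_of_mem_orthogonal (memW 0) m.2
  have hmem2 : ⟪e2, (m : E4)⟫ = 0 := Submodule.inner_right_of_mem_orthogonal (memW 1) m.2
  have hmemν : ⟪ν, (m : E4)⟫ = 0 := Submodule.inner_right_of_mem_orthogonal (memW 2) m.2
  refine ⟨(‖(m : E4)‖⁻¹) • (m : E4), ?_, ?_, ?_⟩
  · rw [real_inner_smul_left, real_inner_smul_right, real_inner_self_eq_norm_sq]
    field_simp
  · rw [real_inner_smul_right, hmemν, mul_zero]
  · intro b hb1 hb2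
    set c : E4 := b - (⟪ν, b⟫ / ⟪ν, ν⟫) • ν with hc
    have hcW : c ∈ Wᗮ := by
      rw [hW, Submodule.mem_orthogonal]
      intro u hu
      induction hu using Submodule.span_induction with
      | mem x hx =>
        obtain ⟨i, rfl⟩ := hx
        fin_cases i
        · show ⟪e1, c⟫ = 0
          rw [hc, inner_sub_right, real_inner_smul_right, real_inner_comm b e1, hb1,
            real_inner_comm ν e1, hν1]; simp
        · show ⟪e2, c⟫ = 0
          rw [hc, inner_sub_right, real_inner_smul_right, real_inner_comm b e2, hb2,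
            real_inner_comm ν e2, hν2]; simp
        · show ⟪ν, c⟫ = 0
          rw [hc, inner_sub_right, real_inner_smul_right]
          field_simp
          ring
      | zero => simp
      | add x y _ _ hx hy => rw [inner_add_left, hx, hy, add_zero]
      | smul a x _ hx => rw [real_inner_smul_left, hx, mul_zero]
    obtain ⟨k, hk⟩ := hm ⟨c, hcW⟩
    have hk' : k • (m : E4) = c := congrArg Subtype.val hk
    have hmb : ⟪(m : E4), b⟫ = k * ‖(m : E4)‖ ^ 2 := by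
      have hb : b = c + (⟪ν, b⟫ / ⟪ν, ν⟫) • ν := by rw [hc]; abel
      rw [hb, inner_add_right, real_inner_smul_right, real_inner_comm ν (m : E4), hmemν, ← hk',
        real_inner_smul_right, real_inner_self_eq_norm_sq]
      ring
    rw [real_inner_smul_left, hmb, smul_smul]
    have : ‖(m : E4)‖⁻¹ * (k * ‖(m : E4)‖ ^ 2) * ‖(m : E4)‖⁻¹ = k := by
      field_simp
    rw [this, hk', hc]
    abel

theorem exists_asymptotic (e1 e2 ν b11 b12 b22 : E4) (h11 : ⟪e1, e1⟫ = 1) (h22 : ⟪e2, e2⟫ = 1)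
    (h12 : ⟪e1, e2⟫ = 0) (hν : ν ≠ 0) (hν1 : ⟪ν, e1⟫ = 0) (hν2 : ⟪ν, e2⟫ = 0)
    (p1 : ⟪b11, e1⟫ = 0) (p2 : ⟪b11, e2⟫ = 0) (q1 : ⟪b12, e1⟫ = 0) (q2 : ⟪b12, e2⟫ = 0)
    (r1 : ⟪b22, e1⟫ = 0) (r2 : ⟪b22, e2⟫ = 0) (hg : ⟪b11, b22⟫ = ⟪b12, b12⟫)
    (hq : ⟪ν, b12⟫ ^ 2 ≤ ⟪ν, b11⟫ * ⟪ν, b22⟫) :
    ∃ s t : ℝ, (s ≠ 0 ∨ t ≠ 0) ∧
      s ^ 2 • b11 + (2 * (s * t)) • b12 + t ^ 2 • b22 =
        ((s ^ 2 * ⟪ν, b11⟫ + 2 * (s * t) * ⟪ν, b12⟫ + t ^ 2 * ⟪ν, b22⟫) / ⟪ν, ν⟫) • ν := by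
  obtain ⟨n, hn, hνn, hb⟩ := exists_normal e1 e2 ν h11 h22 h12 hν hν1 hν2
  have hνν : 0 < ⟪ν, ν⟫ := real_inner_self_pos.2 hν
  have c11 := hb b11 p1 p2
  have c12 := hb b12 q1 q2
  have c22 := hb b22 r1 r2
  have hnν : ⟪n, ν⟫ = 0 := by rw [real_inner_comm]; exact hνn
  have i1 : ⟪b11, b22⟫ = ⟪ν, b11⟫ * ⟪ν, b22⟫ / ⟪ν, ν⟫ + ⟪n, b11⟫ * ⟪n, b22⟫ := by
    conv_lhs => rw [c11, c22]
    simp only [inner_add_left, inner_add_right, real_inner_smul_left, real_inner_smul_right, hνn,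
      hnν, hn]
    field_simp
    ring
  have i2 : ⟪b12, b12⟫ = ⟪ν, b12⟫ ^ 2 / ⟪ν, ν⟫ + ⟪n, b12⟫ ^ 2 := by
    conv_lhs => rw [c12]
    simp only [inner_add_left, inner_add_right, real_inner_smul_left, real_inner_smul_right, hνn,
      hnν, hn]
    field_simp
    ring
  have hdet : ⟪n, b11⟫ * ⟪n, b22⟫ - ⟪n, b12⟫ ^ 2 ≤ 0 := by
    have : ⟪n, b11⟫ * ⟪n, b22⟫ - ⟪n, b12⟫ ^ 2 =
        (⟪ν, b12⟫ ^ 2 - ⟪ν, b11⟫ * ⟪ν, b22⟫) / ⟪ν, ν⟫ := by
      rw [i1, i2] at hg
      rw [sub_div]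
      linarith
    rw [this]
    exact div_nonpos_of_nonpos_of_nonneg (by linarith) hνν.le
  obtain ⟨s, t, hst, h0⟩ := quad_zero _ _ _ hdet
  refine ⟨s, t, hst, ?_⟩
  rw [c11, c12, c22]
  simp only [inner_add_right, real_inner_smul_right, hνn, mul_zero, add_zero]
  rw [show (s ^ 2 • ((⟪ν, b11⟫ / ⟪ν, ν⟫) • ν + ⟪n, b11⟫ • n) +
      (2 * (s * t)) • ((⟪ν, b12⟫ / ⟪ν, ν⟫) • ν + ⟪n, b12⟫ • n) +
      t ^ 2 • ((⟪ν, b22⟫ / ⟪ν, ν⟫) • ν + ⟪n, b22⟫ • n)) =
      ((s ^ 2 * (⟪ν, b11⟫ / ⟪ν, ν⟫)) + (2 * (s * t)) * (⟪ν, b12⟫ / ⟪ν, ν⟫) +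
        t ^ 2 * (⟪ν, b22⟫ / ⟪ν, ν⟫)) • ν +
      (s ^ 2 * ⟪n, b11⟫ + 2 * (s * t) * ⟪n, b12⟫ + t ^ 2 * ⟪n, b22⟫) • n by module]
  rw [h0, zero_smul, add_zero]
  congr 1
  field_simp



section secondDerivative

theorem second_deriv_nonneg {φ : ℝ → ℝ} {x : ℝ} (hc : ContinuousAt φ x)
    (h : IsLocalMin φ x) : 0 ≤ deriv (deriv φ) x := by
  by_contra hneg
  push Not at hneg
  have h1 : deriv φ x = 0 := h.deriv_eq_zero
  have hmax := isLocalMax_of_deriv_deriv_neg hneg h1 hc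
  have heq : φ =ᶠ[𝓝 x] fun _ => φ x := by
    filter_upwards [h, hmax] with y hy1 hy2
    exact le_antisymm hy2 hy1
  have h2 : deriv φ =ᶠ[𝓝 x] deriv (fun _ => φ x) := heq.deriv
  have h3 := h2.deriv_eq
  simp at h3
  linarith

theorem deriv_line {g : Plane → ℝ} (hg : ContDiff ℝ ∞ g) (x X : Plane) (s : ℝ) :
    HasDerivAt (fun s : ℝ => g (x + s • X)) (D X g (x + s • X)) s := by
  have h1 : HasFDerivAt g (fderiv ℝ g (x + s • X)) (x + s • X) :=
    (hg.differentiable (by simp) _).hasFDerivAt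
  have h2 : HasDerivAt (fun s : ℝ => x + s • X) X s := by
    have := ((hasDerivAt_id s).smul_const X).const_add x
    simpa using this
  exact h1.comp_hasDerivAt s h2

theorem D_D_nonneg {g : Plane → ℝ} (hg : ContDiff ℝ ∞ g) {x : Plane} (h : IsLocalMin g x)
    (X : Plane) : 0 ≤ D X (D X g) x := by
  have e1 : deriv (fun s : ℝ => g (x + s • X)) = fun s => D X g (x + s • X) := by
    funext s; exact (deriv_line hg x X s).deriv
  have e2 : deriv (deriv (fun s : ℝ => g (x + s • X))) 0 = D X (D X g) x := by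
    rw [e1, (deriv_line (D_smooth hg X) x X 0).deriv]
    simp
  rw [← e2]
  have hcont : Continuous (fun s : ℝ => x + s • X) := by fun_prop
  apply second_deriv_nonneg
  · exact (deriv_line hg x X 0).continuousAt
  · have ht : Filter.Tendsto (fun s : ℝ => x + s • X) (𝓝 0) (𝓝 x) := by
      have := hcont.tendsto 0
      simpa using this
    have := ht.eventually h
    simpa [IsLocalMin, IsMinFilter] using this

end secondDerivative

section core

variable {F : Plane → E4} (hF : ContDiff ℝ ∞ F) (hiso : ∀ x w, ‖fderiv ℝ F x w‖ = ‖w‖)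
  (S : E4 →L[ℝ] E4) (hsym : ∀ y z : E4, ⟪S y, z⟫ = ⟪y, S z⟫)
  (hE : ∀ x, ‖S (F x)‖ = 1)

include hF hE in
theorem ell1 (u x : Plane) : ⟪S (F x), S (D u F x)⟫ = 0 := by
  have hSF : ContDiff ℝ ∞ (fun x => S (F x)) := S.contDiff.comp hF
  have h : (fun x => ⟪S (F x), S (F x)⟫) = fun _ => (1 : ℝ) := by
    funext y; rw [real_inner_self_eq_norm_sq, hE]; norm_num
  have h2 := D_inner hSF hSF u x
  rw [h, D_const, D_clm S hF] at h2
  have h3 := real_inner_comm (S (F x)) (S (D u F x))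
  simp only at h2
  linarith

include hF hE in
theorem ell2 (u v x : Plane) :
    ⟪S (F x), S (D u (D v F) x)⟫ = - ⟪S (D u F x), S (D v F x)⟫ := by
  have hSF : ContDiff ℝ ∞ (fun x => S (F x)) := S.contDiff.comp hF
  have hSD : ContDiff ℝ ∞ (fun x => S (D v F x)) := S.contDiff.comp (D_smooth hF v)
  have h : (fun x => ⟪S (F x), S (D v F x)⟫) = fun _ => (0 : ℝ) := by
    funext y; exact ell1 hF S hE v y
  have h2 := D_inner hSF hSD u x
  rw [h, D_const, D_clm S hF, D_clm S (D_smooth hF v)] at h2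
  simp only at h2
  linarith

theorem D_D_lin (hF : ContDiff ℝ ∞ F) (u v : Plane) (s t : ℝ) (x : Plane) :
    D (s • u + t • v) (D (s • u + t • v) F) x =
      s ^ 2 • D u (D u F) x + (2 * (s * t)) • D u (D v F) x + t ^ 2 • D v (D v F) x := by
  rw [D_lin u v s t, D_lin u v s t]
  simp only
  rw [D_smul_add (D_smooth hF u) (D_smooth hF v) u, D_smul_add (D_smooth hF u) (D_smooth hF v) v,
    D_comm hF v u]
  module

include hF hiso hsym hE in
theorem asymptotic (x : Plane) : ∃ X : Plane, X ≠ 0 ∧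
    D X (D X F) x =
      (-(‖S (D X F x)‖ ^ 2) / ⟪S (S (F x)), S (S (F x))⟫) • S (S (F x)) := by
  set u : Plane := EuclideanSpace.single 0 1 with hu
  set v : Plane := EuclideanSpace.single 1 1 with hv
  have huu : ⟪u, u⟫ = 1 := by simp [hu]
  have hvv : ⟪v, v⟫ = 1 := by simp [hv]
  have huv : ⟪u, v⟫ = 0 := by
    rw [hu, hv, EuclideanSpace.inner_single_left]; simp
  have hνne : S (S (F x)) ≠ 0 := by
    intro h
    have h1 : ⟪S (S (F x)), F x⟫ = 1 := by
      rw [hsym, real_inner_self_eq_norm_sq, hE]; norm_num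
    rw [h] at h1
    simp at h1
  have hν : ∀ z, ⟪S (S (F x)), z⟫ = ⟪S (F x), S z⟫ := fun z => hsym _ _
  have hcs : ⟪S (S (F x)), D u (D v F) x⟫ ^ 2 ≤
      ⟪S (S (F x)), D u (D u F) x⟫ * ⟪S (S (F x)), D v (D v F) x⟫ := by
    rw [hν, hν, hν, ell2 hF S hE, ell2 hF S hE, ell2 hF S hE]
    have := real_inner_mul_inner_self_le (S (D u F x)) (S (D v F x))
    nlinarith
  obtain ⟨s, t, hst, h⟩ := exists_asymptotic (D u F x) (D v F x) (S (S (F x)))
    (D u (D u F) x) (D u (D v F) x) (D v (D v F) x)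
    (by rw [metric hiso, huu]) (by rw [metric hiso, hvv]) (by rw [metric hiso, huv])
    hνne (by rw [hν, ell1 hF S hE]) (by rw [hν, ell1 hF S hE])
    (tang hF hiso _ _ _ _) (tang hF hiso _ _ _ _) (tang hF hiso _ _ _ _) (tang hF hiso _ _ _ _)
    (tang hF hiso _ _ _ _) (tang hF hiso _ _ _ _) (gauss hF hiso u v x) hcs
  refine ⟨s • u + t • v, ?_, ?_⟩
  · intro h0
    have c0 := congrArg (fun z : Plane => z 0) h0
    have c1 := congrArg (fun z : Plane => z 1) h0
    simp [hu, hv] at c0 c1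
    rcases hst with h | h
    · exact h c0
    · exact h c1
  · rw [D_D_lin hF, h]
    congr 2
    rw [D_lin u v s t]
    simp only
    rw [hν, hν, hν, ell2 hF S hE, ell2 hF S hE, ell2 hF S hE, map_add, map_smul, map_smul,
      ← real_inner_self_eq_norm_sq]
    simp only [inner_add_left, inner_add_right, real_inner_smul_left, real_inner_smul_right]
    rw [real_inner_comm (S (D u F x)) (S (D v F x))]
    ring

include hF hiso hsym hE in
theorem no_local_min {ℓ : ℝ} (hℓ : ∀ y : E4, ℓ * ‖y‖ ≤ ‖S y‖) (hℓ0 : 0 < ℓ) (G₀ : E4) (x : Plane)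
    (ε : ℝ) (hε : 0 ≤ ε)
    (hpos : 2 * ε * ⟪S (S (F x)), S (S (F x))⟫ < ℓ ^ 2 * ⟪S G₀, S (S (F x))⟫) :
    ¬ IsLocalMin (fun y : Plane => ⟪G₀, S (F y)⟫ + ε * (y 0) ^ 2) x := by
  intro hmin
  obtain ⟨X, hX, hXX⟩ := asymptotic hF hiso S hsym hE x
  have hSF : ContDiff ℝ ∞ (fun x => S (F x)) := S.contDiff.comp hF
  have hc : ContDiff ℝ ∞ (fun _ : Plane => G₀) := contDiff_const
  have hg1 : ContDiff ℝ ∞ (fun y : Plane => ⟪G₀, S (F y)⟫) := hc.inner ℝ hSF
  have hcoord : ContDiff ℝ ∞ (fun y : Plane => y 0) := by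
    exact (EuclideanSpace.proj (𝕜 := ℝ) (0 : Fin 2)).contDiff
  have hg2 : ContDiff ℝ ∞ (fun y : Plane => (y 0) ^ 2) := hcoord.pow 2
  have hg : ContDiff ℝ ∞ (fun y : Plane => ⟪G₀, S (F y)⟫ + ε * (y 0) ^ 2) :=
    hg1.add (contDiff_const.mul hg2)
  have hnn := D_D_nonneg hg hmin X
  have hDcoord : D X (fun y : Plane => y 0) = fun _ => X 0 := by
    funext y
    exact congrArg (fun T : Plane →L[ℝ] ℝ => T X)
      (EuclideanSpace.proj (𝕜 := ℝ) (0 : Fin 2)).fderiv
  have hDg1 : D X (fun y : Plane => ⟪G₀, S (F y)⟫ + ε * (y 0) ^ 2) =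
      fun y => ⟪G₀, S (D X F y)⟫ + ε * (2 * y 0 * X 0) := by
    funext y
    have e1 : D X (fun y : Plane => (1 : ℝ) • ⟪G₀, S (F y)⟫ + ε • (y 0) ^ 2) y =
      (1 : ℝ) • D X (fun y : Plane => ⟪G₀, S (F y)⟫) y + ε • D X (fun y : Plane => (y 0) ^ 2) y :=
      D_smul_add hg1 hg2 X 1 ε y
    have e2 : D X (fun y : Plane => ⟪G₀, S (F y)⟫) y = ⟪G₀, S (D X F y)⟫ := by
      have := D_inner hc hSF X y
      rw [D_const, D_clm S hF] at this
      simpa using this
    have e3 : D X (fun y : Plane => (y 0) ^ 2) y = 2 * y 0 * X 0 := by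
      have hd : HasFDerivAt (fun y : Plane => y 0) (EuclideanSpace.proj (𝕜 := ℝ) (0 : Fin 2)) y :=
        (EuclideanSpace.proj (𝕜 := ℝ) (0 : Fin 2)).hasFDerivAt
      have := (hd.pow 2).fderiv
      unfold D
      rw [this]
      simp
    rw [e2, e3] at e1
    simpa using e1
  have hDDg : D X (D X (fun y : Plane => ⟪G₀, S (F y)⟫ + ε * (y 0) ^ 2)) x =
      ⟪G₀, S (D X (D X F) x)⟫ + ε * (2 * (X 0) ^ 2) := by
    rw [hDg1]
    have hSD : ContDiff ℝ ∞ (fun x => S (D X F x)) := S.contDiff.comp (D_smooth hF X)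
    have e1 : D X (fun y : Plane => (1 : ℝ) • ⟪G₀, S (D X F y)⟫ + (ε * (2 * X 0)) • (y 0)) x =
      (1 : ℝ) • D X (fun y : Plane => ⟪G₀, S (D X F y)⟫) x +
        (ε * (2 * X 0)) • D X (fun y : Plane => y 0) x :=
      D_smul_add (hc.inner ℝ hSD) hcoord X 1 (ε * (2 * X 0)) x
    have e2 : D X (fun y : Plane => ⟪G₀, S (D X F y)⟫) x = ⟪G₀, S (D X (D X F) x)⟫ := by
      have := D_inner hc hSD X x
      rw [D_const, D_clm S (D_smooth hF X)] at this
      simpa using this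
    rw [e2, hDcoord] at e1
    have e3 : (fun y : Plane => ⟪G₀, S (D X F y)⟫ + ε * (2 * y 0 * X 0)) =
        (fun y : Plane => (1 : ℝ) • ⟪G₀, S (D X F y)⟫ + (ε * (2 * X 0)) • (y 0)) := by
      funext y
      simp only [smul_eq_mul]
      ring
    rw [e3, e1]
    simp only [smul_eq_mul]
    ring
  rw [hDDg, ← hsym, hXX, real_inner_smul_right] at hnn
  have hνne : S (S (F x)) ≠ 0 := by
    intro h
    have h1 : ⟪S (S (F x)), F x⟫ = 1 := by
      rw [hsym, real_inner_self_eq_norm_sq, hE]; norm_num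
    rw [h] at h1
    simp at h1
  have hνν : 0 < ⟪S (S (F x)), S (S (F x))⟫ := real_inner_self_pos.2 hνne
  have hXn : 0 < ‖X‖ := norm_pos_iff.2 hX
  have hX0 : (X 0) ^ 2 ≤ ‖X‖ ^ 2 := by
    rw [EuclideanSpace.norm_sq_eq]
    simp only [Real.norm_eq_abs, sq_abs, Fin.sum_univ_two]
    nlinarith [sq_nonneg (X 1)]
  have hS : ℓ ^ 2 * ‖X‖ ^ 2 ≤ ‖S (D X F x)‖ ^ 2 := by
    have h1 : ‖D X F x‖ = ‖X‖ := hiso x X
    have h2 := hℓ (D X F x)
    rw [h1] at h2
    have h3 : 0 ≤ ℓ * ‖X‖ := by positivity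
    calc ℓ ^ 2 * ‖X‖ ^ 2 = (ℓ * ‖X‖) ^ 2 := by ring
      _ ≤ ‖S (D X F x)‖ ^ 2 := by gcongr
  set N := ⟪S (S (F x)), S (S (F x))⟫ with hN
  set P := ⟪S G₀, S (S (F x))⟫ with hP
  have hP0 : 0 < P := by
    by_contra hcon
    push Not at hcon
    have : ℓ ^ 2 * P ≤ 0 := mul_nonpos_of_nonneg_of_nonpos (by positivity) hcon
    have : 0 ≤ 2 * ε * N := by positivity
    linarith
  have hmul : 0 ≤ -(‖S (D X F x)‖ ^ 2) * P + 2 * ε * (X 0) ^ 2 * N := by
    have := mul_nonneg hnn hνν.le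
    have e : (-(‖S (D X F x)‖ ^ 2) / N * P + ε * (2 * (X 0) ^ 2)) * N =
      -(‖S (D X F x)‖ ^ 2) * P + 2 * ε * (X 0) ^ 2 * N := by
      field_simp
    rw [e] at this
    exact this
  have h1 : ℓ ^ 2 * ‖X‖ ^ 2 * P ≤ ‖S (D X F x)‖ ^ 2 * P := by gcongr
  have h2 : 2 * ε * (X 0) ^ 2 * N ≤ 2 * ε * ‖X‖ ^ 2 * N := by gcongr
  have h3 : 2 * ε * N * ‖X‖ ^ 2 < ℓ ^ 2 * P * ‖X‖ ^ 2 := by
    apply mul_lt_mul_of_pos_right hpos (by positivity)
  linarith

end core

section strips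

/-- The point of the plane with coordinates `t` and `v`. -/
noncomputable def pt (t v : ℝ) : Plane := !₂[t, v]

theorem pt_zero (t v : ℝ) : pt t v 0 = t := by simp [pt]
theorem pt_one (t v : ℝ) : pt t v 1 = v := by simp [pt]
theorem pt_eta (x : Plane) : pt (x 0) (x 1) = x := by
  ext i; fin_cases i <;> simp [pt]

theorem pt_dist (t v t' v' : ℝ) : ‖pt t v - pt t' v'‖ ≤ |t - t'| + |v - v'| := by
  rw [EuclideanSpace.norm_eq]
  simp only [Fin.sum_univ_two, PiLp.sub_apply, pt_zero, pt_one, Real.norm_eq_abs]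
  apply Real.sqrt_le_iff.2
  refine ⟨by positivity, ?_⟩
  nlinarith [abs_nonneg (t - t'), abs_nonneg (v - v'), mul_nonneg (abs_nonneg (t - t')) (abs_nonneg (v - v'))]

theorem continuous_pt : Continuous (fun q : ℝ × ℝ => pt q.1 q.2) := by
  unfold pt
  fun_prop

variable {F : Plane → E4} (hF : ContDiff ℝ ∞ F) (hiso : ∀ x w, ‖fderiv ℝ F x w‖ = ‖w‖)
  (S : E4 →L[ℝ] E4) (hsym : ∀ y z : E4, ⟪S y, z⟫ = ⟪y, S z⟫)
  (hE : ∀ x, ‖S (F x)‖ = 1)
  {ℓ L a : ℝ} (hℓ0 : 0 < ℓ) (hL0 : 0 < L) (ha0 : 0 < a)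
  (hℓ : ∀ y : E4, ℓ * ‖y‖ ≤ ‖S y‖) (hL : ∀ y : E4, ‖S y‖ ≤ L * ‖y‖)
  (hgl : ∀ t v : ℝ, F (pt (-t) (v + a)) = F (pt t v))

include hF hiso in
theorem lip (x y : Plane) : ‖F x - F y‖ ≤ ‖x - y‖ := by
  have := Convex.norm_image_sub_le_of_norm_fderiv_le (𝕜 := ℝ) (f := F) (C := 1) (s := Set.univ)
    (x := y) (y := x) (fun z _ => hF.differentiable (by simp) z)
    (fun z _ => ContinuousLinearMap.opNorm_le_bound _ zero_le_one
      (fun w => by rw [hiso z w, one_mul])) convex_univ (Set.mem_univ _) (Set.mem_univ _)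
  simpa using this

include hF hiso hL hL0 in
theorem lipG (x y : Plane) : ‖S (F x) - S (F y)‖ ≤ L * ‖x - y‖ := by
  rw [← map_sub]
  exact (hL _).trans (mul_le_mul_of_nonneg_left (lip hF hiso x y) hL0.le)

include hgl in
theorem per (t : ℝ) : Function.Periodic (fun v => F (pt t v)) (2 * a) := by
  intro v
  show F (pt t (v + 2 * a)) = F (pt t v)
  have h1 := hgl (-t) (v + a)
  have h2 := hgl t v
  rw [neg_neg] at h1
  rw [← h2, ← h1]
  congr 2
  ring

theorem inner_one_sub {x y : E4} (hx : ‖x‖ = 1) (hy : ‖y‖ = 1) :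
    ⟪x, y⟫ = 1 - ‖y - x‖ ^ 2 / 2 := by
  have := norm_sub_sq_real y x
  rw [hx, hy, real_inner_comm] at this
  linarith

include hL hℓ in
theorem pos_inner (G₀ G : E4) (hG : ‖G‖ = 1) (ρ : ℝ) (hρ : ‖G - G₀‖ ≤ ρ) (hρ1 : L * ρ ≤ ℓ)
    (hL0 : 0 < L) : ℓ * (ℓ - L * ρ) ≤ ⟪S G₀, S G⟫ := by
  have h1 : ℓ ≤ ‖S G‖ := by have := hℓ G; rwa [hG, mul_one] at this
  have h2 : ‖S (G - G₀)‖ ≤ L * ρ := (hL _).trans (mul_le_mul_of_nonneg_left hρ hL0.le)
  have h3 : ⟪S G₀, S G⟫ = ‖S G‖ ^ 2 - ⟪S (G - G₀), S G⟫ := by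
    rw [map_sub, inner_sub_left, real_inner_self_eq_norm_sq]; ring
  have h4 : ⟪S (G - G₀), S G⟫ ≤ ‖S (G - G₀)‖ * ‖S G‖ := real_inner_le_norm _ _
  have h5 : ‖S (G - G₀)‖ * ‖S G‖ ≤ L * ρ * ‖S G‖ :=
    mul_le_mul_of_nonneg_right h2 (norm_nonneg _)
  have h6 : ℓ * (ℓ - L * ρ) ≤ ‖S G‖ * (‖S G‖ - L * ρ) := by
    apply mul_le_mul h1 (by linarith) (by linarith) (norm_nonneg _)
  rw [h3]
  nlinarith

/-- The key step: on the strip `|t| ≤ r` the image stays close to the boundary point. -/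
def Near (F : Plane → E4) (S : E4 →L[ℝ] E4) (L a r : ℝ) : Prop :=
  ∀ t v : ℝ, |t| ≤ r → ‖S (F (pt t v)) - S (F (pt r 0))‖ ≤ L * a

include hF hiso hL hL0 hgl ha0 in
theorem boundary_near (r v : ℝ) : ‖S (F (pt r v)) - S (F (pt r 0))‖ ≤ L * a := by
  obtain ⟨w, hw, hw2⟩ := (per hgl r).exists_mem_Ico (by linarith : 0 < 2 * a) v (-a)
  rw [hw2]
  have hwa : |w| ≤ a := by
    rw [abs_le]
    constructor
    · exact hw.1
    · have := hw.2; linarith
  refine (lipG hF hiso S hL0 hL _ _).trans (mul_le_mul_of_nonneg_left ?_ hL0.le)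
  refine (pt_dist _ _ _ _).trans ?_
  simpa using hwa

include hF hiso hsym hE hℓ hℓ0 hL hL0 hgl ha0 in
theorem strip_step (r : ℝ) (hr : 0 ≤ r) (ρ : ℝ) (hρL : L * ρ < ℓ)
    (hclose : ∀ t v : ℝ, |t| ≤ r → ‖S (F (pt t v)) - S (F (pt r 0))‖ ≤ ρ) :
    Near F S L a r := by
  have hSF : Continuous (fun x => S (F x)) := S.continuous.comp hF.continuous
  set G₀ : E4 := S (F (pt r 0)) with hG₀
  set K : Set Plane := (fun q : ℝ × ℝ => pt q.1 q.2) '' (Set.Icc (-r) r ×ˢ Set.Icc 0 (2 * a))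
    with hK
  have hKc : IsCompact K := (isCompact_Icc.prod isCompact_Icc).image continuous_pt
  have hKne : K.Nonempty := ⟨pt 0 0, ⟨(0, 0), ⟨⟨by simpa using hr, hr⟩, ⟨le_refl _, by positivity⟩⟩, rfl⟩⟩
  have hgc : Continuous (fun y : Plane => ⟪G₀, S (F y)⟫) := continuous_const.inner hSF
  obtain ⟨p, hpK, hpmin⟩ := hKc.exists_isMinOn hKne hgc.continuousOn
  obtain ⟨⟨t₀, v₀⟩, ⟨ht₀, hv₀⟩, hp⟩ := hpK
  simp only at hp ht₀ hv₀
  -- the minimum over the whole strip
  have hstrip : ∀ t v : ℝ, |t| ≤ r → ⟪G₀, S (F p)⟫ ≤ ⟪G₀, S (F (pt t v))⟫ := by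
    intro t v ht
    obtain ⟨w, hw, hw2⟩ := (per hgl t).exists_mem_Ico₀ (by linarith : 0 < 2 * a) v
    rw [hw2]
    exact hpmin ⟨(t, w), ⟨abs_le.1 ht, ⟨hw.1, hw.2.le⟩⟩, rfl⟩
  have habs : |t₀| ≤ r := abs_le.2 ht₀
  -- the minimum is attained on the boundary of the strip
  have hbd : |t₀| = r := by
    by_contra hne
    have hlt : |t₀| < r := lt_of_le_of_ne habs hne
    have hloc : IsLocalMin (fun y : Plane => ⟪G₀, S (F y)⟫ + 0 * (y 0) ^ 2) p := by
      have hcoord : Continuous (fun y : Plane => |y 0|) := by fun_prop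
      have hp0 : p 0 = t₀ := by rw [← hp, pt_zero]
      have hev : ∀ᶠ y in 𝓝 p, |y 0| < r := by
        have := hcoord.tendsto p
        simp only [hp0] at this
        exact this.eventually (gt_mem_nhds hlt)
      filter_upwards [hev] with y hy
      have := hstrip (y 0) (y 1) hy.le
      rw [pt_eta] at this
      simpa using this
    refine no_local_min hF hiso S hsym hE hℓ hℓ0 G₀ p 0 le_rfl ?_ hloc
    have hnear : ‖S (F p) - G₀‖ ≤ ρ := by rw [← hp]; exact hclose t₀ v₀ habs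
    have hpos := pos_inner S hℓ hL G₀ (S (F p)) (hE p) ρ hnear hρL.le hL0
    have : 0 < ℓ * (ℓ - L * ρ) := mul_pos hℓ0 (by linarith)
    have h2 : 0 < ⟪S G₀, S (S (F p))⟫ := by linarith
    have : 0 < ℓ ^ 2 * ⟪S G₀, S (S (F p))⟫ := by positivity
    linarith
  -- so the minimal value is close to one
  have hval : ‖S (F p) - G₀‖ ≤ L * a := by
    rcases abs_eq hr |>.1 hbd with h | h
    · rw [← hp, h]; exact boundary_near hF hiso S hL0 ha0 hL hgl r v₀
    · have h1 := hgl t₀ v₀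
      rw [h, neg_neg] at h1
      rw [← hp, h, ← h1]
      exact boundary_near hF hiso S hL0 ha0 hL hgl r (v₀ + a)
  intro t v ht
  have h1 := hstrip t v ht
  rw [inner_one_sub (hE _) (hE _), inner_one_sub (hE _) (hE _)] at h1
  have h2 : ‖S (F (pt t v)) - G₀‖ ^ 2 ≤ (L * a) ^ 2 := by
    have : ‖S (F p) - G₀‖ ^ 2 ≤ (L * a) ^ 2 := by gcongr
    linarith
  exact (sq_le_sq₀ (norm_nonneg _) (by positivity)).1 h2

include hF hiso hsym hE hℓ hℓ0 hL hL0 hgl ha0 in
theorem strip_all (ha : 4 * L ^ 2 * a ≤ ℓ) (n : ℕ) :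
    ∀ r : ℝ, 0 ≤ r → r ≤ n * (a / 2) → Near F S L a r := by
  induction n with
  | zero =>
    intro r hr hr'
    have h0 : r = 0 := le_antisymm (by simpa using hr') hr
    subst h0
    intro t v ht
    have : t = 0 := abs_nonpos_iff.1 ht
    subst this
    exact boundary_near hF hiso S hL0 ha0 hL hgl 0 v
  | succ n ih =>
    intro r hr hr'
    set r₀ := max (r - a / 2) 0 with hr₀
    have hr₀0 : 0 ≤ r₀ := le_max_right _ _
    have hr₀n : r₀ ≤ n * (a / 2) := by
      apply max_le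
      · push_cast at hr'; linarith
      · positivity
    have hr₀r : r₀ ≤ r := max_le (by linarith) hr
    have hrr₀ : r - r₀ ≤ a / 2 := by have := le_max_left (r - a / 2) 0; linarith
    have hN := ih r₀ hr₀0 hr₀n
    apply strip_step hF hiso S hsym hE hℓ0 hL0 ha0 hℓ hL hgl r hr (2 * (L * a))
    · nlinarith [mul_pos (mul_pos hL0 hL0) ha0]
    · intro t v ht
      set t' := max (-r₀) (min r₀ t) with ht'
      have htt : |t'| ≤ r₀ := by
        rw [abs_le]
        constructor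
        · exact le_max_left _ _
        · exact max_le (by linarith) (min_le_left _ _)
      have htd : |t - t'| ≤ a / 2 := by
        have := abs_le.1 ht
        rw [abs_le, ht']
        rcases le_total t (-r₀) with h | h
        · rw [min_eq_right (by linarith), max_eq_left h]
          constructor <;> linarith
        · rcases le_total r₀ t with h' | h'
          · rw [min_eq_left h', max_eq_right (by linarith)]
            constructor <;> linarith
          · rw [min_eq_right h', max_eq_right h]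
            constructor <;> linarith
      have e1 := lipG hF hiso S hL0 hL (pt t v) (pt t' v)
      have e2 := hN t' v htt
      have e3 := lipG hF hiso S hL0 hL (pt r₀ 0) (pt r 0)
      have e4 : ‖pt t v - pt t' v‖ ≤ a / 2 := by
        refine (pt_dist _ _ _ _).trans ?_
        simpa using htd
      have e5 : ‖pt r₀ 0 - pt r 0‖ ≤ a / 2 := by
        refine (pt_dist _ _ _ _).trans ?_
        rw [abs_sub_comm, abs_of_nonneg (by linarith : 0 ≤ r - r₀)]
        simpa using hrr₀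
      have e6 : L * ‖pt t v - pt t' v‖ ≤ L * (a / 2) := by gcongr
      have e7 : L * ‖pt r₀ 0 - pt r 0‖ ≤ L * (a / 2) := by gcongr
      have e8 : S (F (pt t v)) - S (F (pt r 0)) = (S (F (pt t v)) - S (F (pt t' v))) +
        (S (F (pt t' v)) - S (F (pt r₀ 0))) + (S (F (pt r₀ 0)) - S (F (pt r 0))) := by abel
      rw [e8]
      refine (norm_add₃_le).trans ?_
      linarith

include hF hiso hsym hE hℓ hℓ0 hL hL0 hgl ha0 in
theorem core (ha : 4 * L ^ 2 * a ≤ ℓ) : False := by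
  have hall : ∀ x : Plane, ‖S (F x) - S (F (pt 0 0))‖ ≤ 2 * (L * a) := by
    intro x
    obtain ⟨n, hn⟩ := exists_nat_ge (|x 0| / (a / 2))
    have hn' : |x 0| ≤ n * (a / 2) := by
      rwa [div_le_iff₀ (by positivity)] at hn
    have hN := strip_all hF hiso S hsym hE hℓ0 hL0 ha0 hℓ hL hgl ha n |x 0| (abs_nonneg _) hn'
    have h1 := hN (x 0) (x 1) le_rfl
    have h2 := hN 0 0 (by simp)
    rw [pt_eta] at h1
    rw [norm_sub_rev] at h2
    have h3 : S (F x) - S (F (pt 0 0)) = (S (F x) - S (F (pt |x 0| 0))) +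
      (S (F (pt |x 0| 0)) - S (F (pt 0 0))) := by abel
    rw [h3]
    refine (norm_add_le _ _).trans ?_
    linarith
  set G₀ : E4 := S (F (pt 0 0)) with hG₀
  set ε : ℝ := ℓ ^ 4 / (8 * L ^ 2) with hε
  have hε0 : 0 < ε := by positivity
  have hSF : Continuous (fun x => S (F x)) := S.continuous.comp hF.continuous
  have hcoord : Continuous (fun y : Plane => y 0) := by fun_prop
  have hgc : Continuous (fun y : Plane => ⟪G₀, S (F y)⟫ + ε * (y 0) ^ 2) :=
    (continuous_const.inner hSF).add (continuous_const.mul (hcoord.pow 2))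
  obtain ⟨R, hR0, hR⟩ : ∃ R : ℝ, 0 ≤ R ∧ 2 < ε * R ^ 2 := by
    refine ⟨Real.sqrt (3 / ε), Real.sqrt_nonneg _, ?_⟩
    rw [Real.sq_sqrt (by positivity)]
    field_simp
    norm_num
  set K : Set Plane := (fun q : ℝ × ℝ => pt q.1 q.2) '' (Set.Icc (-R) R ×ˢ Set.Icc 0 (2 * a))
    with hK
  have hKc : IsCompact K := (isCompact_Icc.prod isCompact_Icc).image continuous_pt
  have h00 : pt 0 0 ∈ K := ⟨(0, 0), ⟨⟨by simpa using hR0, hR0⟩, ⟨le_refl _, by positivity⟩⟩, rfl⟩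
  obtain ⟨p, hpK, hpmin⟩ := hKc.exists_isMinOn ⟨_, h00⟩ hgc.continuousOn
  have hglob : ∀ y : Plane, ⟪G₀, S (F p)⟫ + ε * (p 0) ^ 2 ≤ ⟪G₀, S (F y)⟫ + ε * (y 0) ^ 2 := by
    intro y
    rcases le_or_gt |y 0| R with h | h
    · obtain ⟨w, hw, hw2⟩ := (per hgl (y 0)).exists_mem_Ico₀ (by linarith : 0 < 2 * a) (y 1)
      rw [pt_eta] at hw2
      have h1 : pt (y 0) w ∈ K := ⟨(y 0, w), ⟨abs_le.1 h, ⟨hw.1, hw.2.le⟩⟩, rfl⟩
      have h2 := hpmin h1
      simp only [Set.mem_ofPred_eq, pt_zero] at h2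
      rw [hw2]
      exact h2
    · have h1 := hpmin h00
      simp only [Set.mem_ofPred_eq, pt_zero] at h1
      have h2 : ⟪G₀, S (F (pt 0 0))⟫ ≤ 1 := by
        have h1 := real_inner_le_norm (S (F (pt 0 0))) (S (F (pt 0 0)))
        have h2 := hE (pt 0 0)
        have h3 : ⟪G₀, S (F (pt 0 0))⟫ = ⟪S (F (pt 0 0)), S (F (pt 0 0))⟫ := rfl
        nlinarith
      have h3 : -1 ≤ ⟪G₀, S (F y)⟫ := by
        have := neg_le_of_abs_le (abs_real_inner_le_norm G₀ (S (F y)))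
        have hn : ‖G₀‖ = 1 := hE _
        rw [hn, hE] at this
        linarith
      have h4 : R ^ 2 ≤ (y 0) ^ 2 := by
        rw [← sq_abs (y 0)]; gcongr
      have h5 : ε * R ^ 2 ≤ ε * (y 0) ^ 2 := by gcongr
      linarith
  have hloc : IsLocalMin (fun y : Plane => ⟪G₀, S (F y)⟫ + ε * (y 0) ^ 2) p :=
    Filter.Eventually.of_forall hglob
  refine no_local_min hF hiso S hsym hE hℓ hℓ0 G₀ p ε hε0.le ?_ hloc
  have h1 : L * (2 * (L * a)) ≤ ℓ / 2 := by nlinarith
  have hpos := pos_inner S hℓ hL G₀ (S (F p)) (hE p) (2 * (L * a)) (hall p) (by linarith) hL0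
  have h2 : ℓ ^ 2 / 2 ≤ ⟪S G₀, S (S (F p))⟫ := by
    refine le_trans ?_ hpos
    have : ℓ / 2 ≤ ℓ - L * (2 * (L * a)) := by linarith
    calc ℓ ^ 2 / 2 = ℓ * (ℓ / 2) := by ring
      _ ≤ _ := mul_le_mul_of_nonneg_left this hℓ0.le
  have h3 : ⟪S (S (F p)), S (S (F p))⟫ ≤ L ^ 2 := by
    rw [real_inner_self_eq_norm_sq]
    have := hL (S (F p))
    rw [hE, mul_one] at this
    gcongr
  calc 2 * ε * ⟪S (S (F p)), S (S (F p))⟫ ≤ 2 * ε * L ^ 2 := by gcongr
    _ = ℓ ^ 4 / 4 := by rw [hε]; field_simp; ring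
    _ < ℓ ^ 4 / 2 := by have : 0 < ℓ ^ 4 := by positivity
                        linarith
    _ = ℓ ^ 2 * (ℓ ^ 2 / 2) := by ring
    _ ≤ _ := by gcongr

end strips

section final

/-- The diagonal linear map `y ↦ (d_i * y_i)`. -/
noncomputable def diag (d : Fin 4 → ℝ) : E4 →L[ℝ] E4 :=
  LinearMap.toContinuousLinearMap
    { toFun := fun y => WithLp.toLp 2 (fun i => d i * y i)
      map_add' := by intro x y; ext i; simp [mul_add]
      map_smul' := by intro m x; ext i; simp; ring }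

theorem diag_apply (d : Fin 4 → ℝ) (y : E4) (i : Fin 4) : diag d y i = d i * y i := rfl

theorem diag_symm (d : Fin 4 → ℝ) (y z : E4) : ⟪diag d y, z⟫ = ⟪y, diag d z⟫ := by
  simp only [PiLp.inner_apply, diag_apply]
  apply Finset.sum_congr rfl
  intro i _
  simp
  ring

theorem diag_diag (d e : Fin 4 → ℝ) (h : ∀ i, d i * e i = 1) (y : E4) :
    diag d (diag e y) = y := by
  ext i
  rw [diag_apply, diag_apply, ← mul_assoc, h, one_mul]

/-- For every ellipsoid `E` in Euclidean 4-space there is `a₀ > 0` such that for `0 < a ≤ a₀` the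
complete flat Moebius band of width `a` has no smooth isometric immersion with image in `E`. -/
theorem result : ∀ E : Set E4, IsEllipsoid E →
    ∃ a₀ : ℝ, 0 < a₀ ∧ ∀ a : ℝ, 0 < a → a ≤ a₀ →
      ¬ ∃ g : MoebiusBand a → E4, IsIsometricImmersion a g ∧ ∀ p, g p ∈ E := by
  rintro E ⟨A, c, hc, rfl⟩
  set S : E4 →L[ℝ] E4 := diag (fun i => (c i)⁻¹) with hS
  set T : E4 →L[ℝ] E4 := diag c with hT
  have hTS : ∀ y, T (S y) = y := fun y =>
    diag_diag _ _ (fun i => mul_inv_cancel₀ (hc i).ne') y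
  set ℓ : ℝ := (‖T‖ + 1)⁻¹ with hℓd
  set L : ℝ := ‖S‖ + 1 with hLd
  have hT1 : 0 < ‖T‖ + 1 := by positivity
  have hℓ0 : 0 < ℓ := by positivity
  have hL0 : 0 < L := by positivity
  have hℓ : ∀ y : E4, ℓ * ‖y‖ ≤ ‖S y‖ := by
    intro y
    have h1 : ‖y‖ ≤ (‖T‖ + 1) * ‖S y‖ := by
      calc ‖y‖ = ‖T (S y)‖ := by rw [hTS]
        _ ≤ ‖T‖ * ‖S y‖ := T.le_opNorm _
        _ ≤ (‖T‖ + 1) * ‖S y‖ := by gcongr; linarith
    rw [hℓd, inv_mul_le_iff₀ hT1]
    exact h1
  have hL : ∀ y : E4, ‖S y‖ ≤ L * ‖y‖ := by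
    intro y
    calc ‖S y‖ ≤ ‖S‖ * ‖y‖ := S.le_opNorm _
      _ ≤ L * ‖y‖ := by gcongr; linarith
  refine ⟨ℓ / (4 * L ^ 2), by positivity, ?_⟩
  rintro a ha0 ha ⟨g, hg, hgE⟩
  have ha' : 4 * L ^ 2 * a ≤ ℓ := by
    rw [le_div_iff₀ (by positivity)] at ha
    linarith
  set F : Plane → E4 := fun x => A (g (proj a x)) with hFd
  have hAF : F = fun x => A.linearIsometryEquiv (g (proj a x)) + A 0 := by
    funext x
    have := A.map_vadd 0 (g (proj a x))
    simpa using this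
  have hF : ContDiff ℝ ∞ F := by
    rw [hAF]
    exact (A.linearIsometryEquiv.contDiff.comp hg.smooth).add contDiff_const
  have hiso : ∀ x w, ‖fderiv ℝ F x w‖ = ‖w‖ := by
    intro x w
    have hd : DifferentiableAt ℝ (fun y => g (proj a y)) x := hg.smooth.differentiable (by simp) x
    have h1 : HasFDerivAt F (A.linearIsometryEquiv.toContinuousLinearEquiv.toContinuousLinearMap.comp
        (fderiv ℝ (fun y => g (proj a y)) x)) x := by
      rw [hAF]
      exact ((A.linearIsometryEquiv.toContinuousLinearEquiv.toContinuousLinearMap.hasFDerivAt).comp x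
        hd.hasFDerivAt).add_const _
    rw [h1.fderiv]
    show ‖A.linearIsometryEquiv (fderiv ℝ (fun y => g (proj a y)) x w)‖ = ‖w‖
    rw [LinearIsometryEquiv.norm_map, hg.isometric]
  have hE : ∀ x, ‖S (F x)‖ = 1 := by
    intro x
    have h1 : ∑ i, (F x i) ^ 2 / (c i) ^ 2 = 1 := hgE (proj a x)
    rw [EuclideanSpace.norm_eq]
    rw [show (∑ i, ‖S (F x) i‖ ^ 2) = ∑ i, (F x i) ^ 2 / (c i) ^ 2 by
      apply Finset.sum_congr rfl
      intro i _
      rw [hS, diag_apply, Real.norm_eq_abs, sq_abs]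
      ring]
    rw [h1, Real.sqrt_one]
  have hgl : ∀ t v : ℝ, F (pt (-t) (v + a)) = F (pt t v) := by
    intro t v
    have h1 : glide a (pt t v) = pt (-t) (v + a) := by
      show !₂[-(pt t v) 0, (pt t v) 1 + a] = pt (-t) (v + a)
      rw [pt_zero, pt_one]; rfl
    show A (g (proj a (pt (-t) (v + a)))) = A (g (proj a (pt t v)))
    rw [← h1, proj_glide]
  exact core hF hiso S (diag_symm _) hE hℓ0 hL0 ha0 hℓ hL hgl ha'

/-- The negative answer to the question in its literal form: no single ellipsoid contains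
isometric embeddings of the bands of all widths. -/
theorem no_ellipsoid_for_all_widths : ¬ ∃ E : Set E4, IsEllipsoid E ∧
    ∀ a : ℝ, 0 < a → ∃ g : MoebiusBand a → E4, IsIsometricEmbedding a g ∧ ∀ p, g p ∈ E := by
  rintro ⟨E, hE, h⟩
  obtain ⟨a₀, ha₀, h₀⟩ := result E hE
  obtain ⟨g, hg, hgE⟩ := h a₀ ha₀
  exact h₀ a₀ ha₀ le_rfl ⟨g, hg.toIsIsometricImmersion, hgE⟩

end final

end Pool.Agent.Results.MP_174134_gt.NoSingleEllipsoid
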